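import Mathlib

set_option autoImplicit false

namespace Pool.Agent.H.MP_9525dc_co

/-- `v` is an endvertex of `G`: it has exactly one neighbour. -/
def IsEnd {n : ℕ} (G : SimpleGraph (Fin n)) (v : Fin n) : Prop := ∃! w, G.Adj v w

/-- `G` has no isolated vertex. -/
def NoIsolated {n : ℕ} (G : SimpleGraph (Fin n)) : Prop := ∀ v, ∃ w, G.Adj v w

/-- `G` and `G'` have the same endvertex-deck: a bijection between their endvertices matches
isomorphic vertex-deleted subgraphs. -/
def SameEndDeck {n m : ℕ} (G : SimpleGraph (Fin n)) (G' : SimpleGraph (Fin m)) : Prop :=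
  ∃ e : {v // IsEnd G v} ≃ {v // IsEnd G' v}, ∀ v : {v // IsEnd G v},
    Nonempty (G.induce {x | x ≠ v.1} ≃g G'.induce {x | x ≠ (e v).1})

/-- `G` is endvertex-reconstructible (among graphs without isolated vertices). -/
def EndReconstructible {n : ℕ} (G : SimpleGraph (Fin n)) : Prop :=
  ∀ (m : ℕ) (G' : SimpleGraph (Fin m)), NoIsolated G' → SameEndDeck G G' → Nonempty (G ≃g G')

/-- `α` is sufficient: every nonempty graph without isolated vertices having at least `α |V|`
endvertices is endvertex-reconstructible. -/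
def Sufficient (α : ℝ) : Prop :=
  ∀ (n : ℕ) (G : SimpleGraph (Fin n)), 1 ≤ n → NoIsolated G →
    α * n ≤ ({v | IsEnd G v} : Set (Fin n)).ncard → EndReconstructible G

end Pool.Agent.H.MP_9525dc_co
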